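import Mathlib

/-!
`K_n` is not weakly contractible for any `n ≥ 21`.

Let `R` be the Petersen graph on `{0,…,9}`.  The graph `G` has terminals `t_0,…,t_{n-1}` and ten
further vertices `x_0,…,x_9`.  Terminals `t_a, t_b` are adjacent unless `ab` is an edge of `R`;
for every edge `ab` of `R` there are the edges `t_a x_b`, `t_b x_a` and `x_a x_b`.
Then `t_a x_b x_a t_b` (`ab ∈ R`) and the edges `t_a t_b` (`ab ∉ R`) form a `K_n`-scheme, and a
counting argument (girth 5, no independent set of size 5) shows that there is no `K_n`-minor.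
-/

namespace Pool.Agent.Results.MP_ed45fc_co.NotWeaklyContractible

open SimpleGraph

/-- An `H`-scheme in `G`, where the vertex `v` of `H` is identified with the vertex `f v` of `G`.
`S e` is the vertex set of the path belonging to the edge `e` of `H`. -/
def HasScheme {V W : Type} (G : SimpleGraph V) (H : SimpleGraph W) (f : W ↪ V) : Prop :=
  ∃ S : Sym2 W → Set V,
    (∀ u v, H.Adj u v →
      (∃ p : G.Walk (f u) (f v), p.IsPath ∧ {x | x ∈ p.support} = S s(u, v)) ∧
      S s(u, v) ∩ Set.range f = {f u, f v}) ∧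
    (∀ F : Set (Sym2 W), F ⊆ H.edgeSet → F.Nonempty → (∃ x, ∀ e ∈ F, x ∈ S e) →
      ∃ u : W, ∀ e ∈ F, u ∈ e)

/-- `G` has an `H`-minor. -/
def HasMinor {V W : Type} (G : SimpleGraph V) (H : SimpleGraph W) : Prop :=
  ∃ C : W → Set V, (∀ v, (G.induce (C v)).Connected) ∧
    (∀ u v, u ≠ v → Disjoint (C u) (C v)) ∧
    (∀ u v, H.Adj u v → ∃ a ∈ C u, ∃ b ∈ C v, G.Adj a b)

/-- `H` is weakly contractible: every finite graph with an `H`-scheme has an `H`-minor. -/
def WeaklyContractible {W : Type} (H : SimpleGraph W) : Prop :=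
  ∀ (V : Type) [Finite V] (G : SimpleGraph V) (f : W ↪ V), HasScheme G H f → HasMinor G H

/-- adjacency masks of the Petersen graph -/
def pmask : List ℕ :=
  [2 + 16 + 32, 1 + 4 + 64, 2 + 8 + 128, 4 + 16 + 256, 8 + 1 + 512,
   1 + 128 + 256, 2 + 256 + 512, 4 + 512 + 32, 8 + 32 + 64, 16 + 64 + 128]

/-- Petersen graph on the naturals below 10 -/
def pet (a b : ℕ) : Prop := a < 10 ∧ b < 10 ∧ (pmask.getD a 0).testBit b = true

instance (a b : ℕ) : Decidable (pet a b) := by unfold pet; infer_instance

theorem pet_symm' : ∀ a b : Fin 10, pet a b → pet b a := by decide +kernel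

theorem pet_irrefl' : ∀ a : Fin 10, ¬ pet a a := by decide +kernel

theorem pet_tri' : ∀ a b c : Fin 10, pet a b → pet b c → ¬ pet a c := by decide +kernel

theorem pet_quad' : ∀ a b c d : Fin 10, a ≠ c → b ≠ d → pet a b → pet b c → pet c d →
    ¬ pet d a := by decide +kernel

theorem pet_count : ∀ J : Finset (Fin 10),
    10 < ((Finset.univ : Finset (Fin 10 × Fin 10)).filter
      (fun p => p.1 < p.2 ∧ p.1 ∉ J ∧ p.2 ∉ J ∧ pet p.1 p.2)).card + 2 * J.card := by
  decide +kernel

theorem pet_symm {a b : ℕ} (h : pet a b) : pet b a :=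
  pet_symm' ⟨a, h.1⟩ ⟨b, h.2.1⟩ h

theorem pet_ne {a b : ℕ} (h : pet a b) : a ≠ b := by
  rintro rfl; exact pet_irrefl' ⟨a, h.1⟩ h

section graph

variable (n : ℕ)

/-- adjacency of the example -/
def adj : (Fin n ⊕ Fin 10) → (Fin n ⊕ Fin 10) → Prop
  | Sum.inl a, Sum.inl b => a ≠ b ∧ ¬ pet a b
  | Sum.inl a, Sum.inr b => pet a b
  | Sum.inr a, Sum.inl b => pet a b
  | Sum.inr a, Sum.inr b => pet a b

/-- the example -/
def G : SimpleGraph (Fin n ⊕ Fin 10) where
  Adj := adj n
  symm := ⟨by
    rintro (a | a) (b | b) h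
    · exact ⟨h.1.symm, fun h' => h.2 (pet_symm h')⟩
    · exact pet_symm h
    · exact pet_symm h
    · exact pet_symm h⟩
  loopless := ⟨by
    rintro (a | a) h
    · exact h.1 rfl
    · exact pet_ne h rfl⟩

/-- vertex sets of the paths of the scheme -/
def S (e : Sym2 (Fin n)) : Set (Fin n ⊕ Fin 10) :=
  {x | (∃ a ∈ e, x = Sum.inl a) ∨
    ((∃ a b, e = s(a, b) ∧ pet a.val b.val) ∧ ∃ a ∈ e, ∃ j : Fin 10, x = Sum.inr j ∧ a.val = j.val)}

theorem hasScheme : HasScheme (G n) (⊤ : SimpleGraph (Fin n)) ⟨Sum.inl, Sum.inl_injective⟩ := by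
  refine ⟨S n, ?_, ?_⟩
  · intro u v huv
    have huv' : u ≠ v := huv
    refine ⟨?_, ?_⟩
    · by_cases hp : pet u v
      · have h1 : (G n).Adj (Sum.inl u) (Sum.inr ⟨v, hp.2.1⟩) := hp
        have h2 : (G n).Adj (Sum.inr ⟨v, hp.2.1⟩) (Sum.inr ⟨u, hp.1⟩) := pet_symm hp
        have h3 : (G n).Adj (Sum.inr ⟨u, hp.1⟩) (Sum.inl v) := hp
        have hne := pet_ne hp
        refine ⟨.cons h1 (.cons h2 (.cons h3 .nil)), ?_, ?_⟩
        · rw [Walk.isPath_def]
          simp [huv', hne.symm]
        · ext x
          simp only [Walk.support_cons, Walk.support_nil, List.mem_cons, List.not_mem_nil,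
            or_false, Set.mem_ofPred_eq, S, Sym2.mem_iff]
          constructor
          · rintro (rfl | rfl | rfl | rfl)
            · exact Or.inl ⟨u, Or.inl rfl, rfl⟩
            · exact Or.inr ⟨⟨u, v, rfl, hp⟩, v, Or.inr rfl, _, rfl, rfl⟩
            · exact Or.inr ⟨⟨u, v, rfl, hp⟩, u, Or.inl rfl, _, rfl, rfl⟩
            · exact Or.inl ⟨v, Or.inr rfl, rfl⟩
          · rintro (⟨a, (rfl | rfl), rfl⟩ | ⟨_, a, (rfl | rfl), j, rfl, hj⟩)
            · exact Or.inl rfl
            · exact Or.inr (Or.inr (Or.inr rfl))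
            · right; right; left; congr 1; exact Fin.ext hj.symm
            · right; left; congr 1; exact Fin.ext hj.symm
      · have h1 : (G n).Adj (Sum.inl u) (Sum.inl v) := ⟨huv', hp⟩
        refine ⟨.cons h1 .nil, ?_, ?_⟩
        · rw [Walk.isPath_def]
          simp [huv']
        · ext x
          simp only [Walk.support_cons, Walk.support_nil, List.mem_cons, List.not_mem_nil,
            or_false, Set.mem_ofPred_eq, S, Sym2.mem_iff]
          constructor
          · rintro (rfl | rfl)
            · exact Or.inl ⟨u, Or.inl rfl, rfl⟩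
            · exact Or.inl ⟨v, Or.inr rfl, rfl⟩
          · rintro (⟨a, (rfl | rfl), rfl⟩ | ⟨⟨a, b, hab, hpab⟩, _⟩)
            · exact Or.inl rfl
            · exact Or.inr rfl
            · exfalso
              rcases Sym2.eq_iff.1 hab with ⟨rfl, rfl⟩ | ⟨rfl, rfl⟩
              · exact hp hpab
              · exact hp (pet_symm hpab)
    · ext x
      simp only [S, Set.mem_inter_iff, Set.mem_ofPred_eq, Set.mem_range, Sym2.mem_iff,
        Function.Embedding.coeFn_mk, Set.mem_insert_iff, Set.mem_singleton_iff]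
      constructor
      · rintro ⟨(⟨a, (rfl | rfl), rfl⟩ | ⟨_, a, _, j, rfl, _⟩), ⟨y, hy⟩⟩
        · exact Or.inl rfl
        · exact Or.inr rfl
        · exact absurd hy (by simp)
      · rintro (rfl | rfl)
        · exact ⟨Or.inl ⟨u, Or.inl rfl, rfl⟩, u, rfl⟩
        · exact ⟨Or.inl ⟨v, Or.inr rfl, rfl⟩, v, rfl⟩
  · rintro F - ⟨e0, he0⟩ ⟨x, hx⟩
    rcases x with a | j
    · refine ⟨a, fun e he => ?_⟩
      rcases hx e he with ⟨a', ha', h⟩ | ⟨_, a', _, j, h, _⟩
      · rw [Sum.inl.injEq] at h; exact h ▸ ha'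
      · exact absurd h (by simp)
    · have key : ∀ e ∈ F, ∃ a ∈ e, a.val = j.val := by
        intro e he
        rcases hx e he with ⟨a', ha', h⟩ | ⟨_, a', ha', j', h, h'⟩
        · exact absurd h (by simp)
        · rw [Sum.inr.injEq] at h; exact ⟨a', ha', h ▸ h'⟩
      obtain ⟨a0, _, h0⟩ := key e0 he0
      refine ⟨a0, fun e he => ?_⟩
      obtain ⟨a, ha, h⟩ := key e he
      have : a = a0 := Fin.ext (h.trans h0.symm)
      exact this ▸ ha

/-- a vertex of a connected induced subgraph with at least two vertices has a neighbour in it -/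
theorem exists_nbr {V : Type} {G : SimpleGraph V} {C : Set V} (hC : (G.induce C).Connected)
    {a b : V} (ha : a ∈ C) (hb : b ∈ C) (hab : a ≠ b) : ∃ c ∈ C, G.Adj a c := by
  obtain ⟨p⟩ := hC.preconnected ⟨a, ha⟩ ⟨b, hb⟩
  cases p with
  | nil => exact absurd rfl hab
  | cons h q => exact ⟨_, Subtype.property _, h⟩

theorem noMinor (hn : 21 ≤ n) : ¬ HasMinor (G n) (⊤ : SimpleGraph (Fin n)) := by
  classical
  rintro ⟨C, hconn, hdisj, hadj⟩
  have hdisj' : ∀ u v x, x ∈ C u → x ∈ C v → u = v := by
    intro u v x hu hv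
    by_contra h
    exact Set.disjoint_left.1 (hdisj u v h) hu hv
  -- every branch set contains a terminal
  have hterm : ∀ w, ∃ a : Fin n, Sum.inl a ∈ C w := by
    intro w
    by_contra hw
    push Not at hw
    obtain ⟨⟨x0, hx0⟩⟩ := (hconn w).nonempty
    have hr : ∃ j0 : Fin 10, Sum.inr j0 ∈ C w := by
      rcases x0 with a | j
      · exact absurd hx0 (hw a)
      · exact ⟨j, hx0⟩
    obtain ⟨j0, hj0⟩ := hr
    have hex : ∀ w', ∃ y : Fin 10 ⊕ Fin 10, ∃ b ∈ C w',
        (match b with
          | Sum.inl a => ∃ h : a.val < 10, y = Sum.inl ⟨a.val, h⟩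
          | Sum.inr j => y = Sum.inr j) := by
      intro w'
      by_cases hww : w' = w
      · subst hww
        exact ⟨Sum.inr j0, Sum.inr j0, hj0, rfl⟩
      · obtain ⟨a, ha, b, hb, hab⟩ := hadj w w' (Ne.symm hww)
        rcases a with a | j
        · exact absurd ha (hw a)
        · rcases b with b | b
          · have h : pet j b := hab
            exact ⟨Sum.inl ⟨b.val, h.2.1⟩, _, hb, h.2.1, rfl⟩
          · exact ⟨Sum.inr b, _, hb, rfl⟩
    choose g b hb hg using hex
    have hinj : Function.Injective g := by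
      intro u v huv
      have hbu := hg u
      have hbv := hg v
      have : b u = b v := by
        cases hu : b u with
        | inl a =>
          rw [hu] at hbu
          obtain ⟨h1, h1'⟩ := hbu
          cases hv : b v with
          | inl c =>
            rw [hv] at hbv
            obtain ⟨h2, h2'⟩ := hbv
            rw [huv, h2', Sum.inl.injEq, Fin.mk.injEq] at h1'
            congr 1
            exact Fin.ext h1'.symm
          | inr c =>
            rw [hv] at hbv
            rw [huv, hbv] at h1'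
            exact absurd h1' (by simp)
        | inr a =>
          rw [hu] at hbu
          cases hv : b v with
          | inl c =>
            rw [hv] at hbv
            obtain ⟨h2, h2'⟩ := hbv
            rw [huv, h2'] at hbu
            exact absurd hbu (by simp)
          | inr c =>
            rw [hv] at hbv
            simp only at hbu hbv
            rw [huv, hbv, Sum.inr.injEq] at hbu
            rw [hbu]
      exact hdisj' u v (b u) (hb u) (this ▸ hb v)
    have := Fintype.card_le_of_injective g hinj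
    simp at this
    omega
  choose τ hτ using hterm
  have hτinj : Function.Injective τ := fun u v h => hdisj' u v _ (hτ u) (h ▸ hτ v)
  have hτbij : Function.Bijective τ := Finite.injective_iff_bijective.1 hτinj
  have hsurj : ∀ a : Fin n, ∃ w, Sum.inl a ∈ C w := fun a => by
    obtain ⟨w, hw⟩ := hτbij.2 a
    exact ⟨w, hw ▸ hτ w⟩
  choose ρ hρ using hsurj
  have hρinj : Function.Injective ρ := by
    intro a b hab
    obtain ⟨w, hw⟩ := hτbij.2 a
    obtain ⟨w', hw'⟩ := hτbij.2 b
    have h1 : ρ a = w := hdisj' _ _ (Sum.inl a) (hρ a) (hw ▸ hτ w)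
    have h2 : ρ b = w' := hdisj' _ _ (Sum.inl b) (hρ b) (hw' ▸ hτ w')
    rw [← hw, ← hw', ← h1, ← h2, hab]
  have honly : ∀ a b : Fin n, Sum.inl b ∈ C (ρ a) → b = a := by
    intro a b h
    exact hρinj (hdisj' _ _ _ (hρ b) h)
  -- the first ten terminals
  let t : Fin 10 → Fin n := fun i => ⟨i.val, by omega⟩
  have htv : ∀ i, (t i).val = i.val := fun i => rfl
  have htinj : Function.Injective t := fun i j h => Fin.ext (by simpa [t] using h)
  let D : Fin 10 → Set (Fin n ⊕ Fin 10) := fun i => C (ρ (t i))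
  let X : Fin 10 → Finset (Fin 10) := fun i => Finset.univ.filter fun j => Sum.inr j ∈ D i
  have hX : ∀ i j, j ∈ X i ↔ Sum.inr j ∈ D i := by intro i j; simp [X]
  have hXdisj : ∀ i ∈ (Finset.univ : Finset (Fin 10)), ∀ j ∈ (Finset.univ : Finset (Fin 10)),
      i ≠ j → Disjoint (X i) (X j) := by
    intro i _ j _ hij
    rw [Finset.disjoint_left]
    intro k hi hj
    exact hij (htinj (hρinj (hdisj' _ _ _ ((hX i k).1 hi) ((hX j k).1 hj))))
  have hsum : ∑ i, (X i).card ≤ 10 := by
    rw [← Finset.card_biUnion hXdisj]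
    exact (Finset.card_le_univ _).trans (by simp)
  -- a set with a single `x`-vertex: this vertex is a neighbour
  have hsingle : ∀ i v, X i = {v} → pet i v := by
    intro i v hi
    have hv : Sum.inr v ∈ D i := (hX i v).1 (by rw [hi]; simp)
    obtain ⟨c, hc, hac⟩ := exists_nbr (hconn (ρ (t i))) (hρ (t i)) hv (by simp)
    rcases c with c | c
    · have := honly _ _ hc
      subst this
      exact absurd rfl hac.1
    · have hc' : c ∈ X i := (hX i c).2 hc
      rw [hi, Finset.mem_singleton] at hc'
      subst hc'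
      exact hac
  have hsmall : ∀ i, (X i).card ≤ 1 → ∀ v ∈ X i, X i = {v} := by
    intro i hi v hv
    exact (Finset.card_le_one.1 hi |> fun h => by
      ext w; simp only [Finset.mem_singleton]
      exact ⟨fun hw => h w hw v hv, fun hw => hw ▸ hv⟩)
  -- edges of the Petersen graph between sets with at most one `x`-vertex
  have hedge : ∀ i j : Fin 10, pet i j → (X i).card ≤ 1 → (X j).card ≤ 1 → j ∈ X i ∨ i ∈ X j := by
    intro i j hij hi hj
    have hne : ρ (t i) ≠ ρ (t j) := fun h => pet_ne hij (congrArg Fin.val (htinj (hρinj h)))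
    obtain ⟨a, ha, b, hb, hab⟩ := hadj _ _ hne
    rcases a with a | a
    · have hai := honly _ _ ha
      subst hai
      rcases b with b | b
      · have hbj := honly _ _ hb
        subst hbj
        exact absurd hij hab.2
      · -- t_i x_b with x_b in D j
        have hbX : b ∈ X j := (hX j b).2 hb
        have h1 : pet j b := hsingle j b (hsmall j hj b hbX)
        have h2 : pet i b := hab
        exact absurd h2 (pet_tri' i j b hij h1)
    · have haX : a ∈ X i := (hX i a).2 ha
      have h1 : pet i a := hsingle i a (hsmall i hi a haX)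
      rcases b with b | b
      · have hbj := honly _ _ hb
        subst hbj
        have h2 : pet a j := hab
        exact absurd hij (pet_tri' i a j h1 h2)
      · have hbX : b ∈ X j := (hX j b).2 hb
        have h2 : pet j b := hsingle j b (hsmall j hj b hbX)
        have h3 : pet a b := hab
        by_cases haj : a = j
        · left; rw [← haj]; exact haX
        by_cases hbi : b = i
        · right; rw [← hbi]; exact hbX
        exact absurd hij (fun hij => pet_quad' i a b j (Ne.symm hbi) haj h1 h3 (pet_symm h2)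
          (pet_symm hij))
  -- counting
  let J : Finset (Fin 10) := Finset.univ.filter fun i => 2 ≤ (X i).card
  have hJ : ∀ i, i ∈ J ↔ 2 ≤ (X i).card := by intro i; simp [J]
  set E := (Finset.univ : Finset (Fin 10 × Fin 10)).filter
      (fun p => p.1 < p.2 ∧ p.1 ∉ J ∧ p.2 ∉ J ∧ pet p.1 p.2) with hE
  have hEle : E.card ≤ ∑ i ∈ Jᶜ, (X i).card := by
    rw [← Finset.card_sigma]
    have hsub : E ⊆ (Jᶜ.sigma X).image (fun p => (min p.1 p.2, max p.1 p.2)) := by
      rintro ⟨a, b⟩ hab
      rw [hE, Finset.mem_filter] at hab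
      obtain ⟨-, hlt, haJ, hbJ, hp⟩ := hab
      rw [hJ] at haJ hbJ
      simp only at haJ hbJ hlt hp
      rw [Finset.mem_image]
      rcases hedge a b hp (by omega) (by omega) with h | h
      · refine ⟨⟨a, b⟩, ?_, ?_⟩
        · simp only [Finset.mem_sigma, Finset.mem_compl, hJ]
          exact ⟨haJ, h⟩
        · simp [min_eq_left hlt.le, max_eq_right hlt.le]
      · refine ⟨⟨b, a⟩, ?_, ?_⟩
        · simp only [Finset.mem_sigma, Finset.mem_compl, hJ]
          exact ⟨hbJ, h⟩
        · simp [min_eq_right hlt.le, max_eq_left hlt.le]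
    exact (Finset.card_le_card hsub).trans Finset.card_image_le
  have hJle : 2 * J.card ≤ ∑ i ∈ J, (X i).card := by
    rw [mul_comm]
    exact Finset.card_nsmul_le_sum J (fun i => (X i).card) 2 (fun i hi => (hJ i).1 hi)
  have htot : ∑ i ∈ J, (X i).card + ∑ i ∈ Jᶜ, (X i).card = ∑ i, (X i).card :=
    Finset.sum_add_sum_compl J _
  have hc := pet_count J
  rw [← hE] at hc
  omega

end graph

/-- For every `n ≥ 21` the complete graph `K_n` is not weakly contractible.  In particular the
answer to Q1 is negative. -/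
theorem result : ∀ n : ℕ, 21 ≤ n → ¬ WeaklyContractible (⊤ : SimpleGraph (Fin n)) := by
  intro n hn h
  exact noMinor n hn (h _ (G n) _ (hasScheme n))

end Pool.Agent.Results.MP_ed45fc_co.NotWeaklyContractible
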